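import Pool.Agent.X288.CX.Cusp2

/-!
# Tensor products of a variety with all cuspidal representations and all Artin representations

Let `K` be a number field and `H = H^i(Y)` the cohomology of any smooth projective variety `Y` over `K`, of
dimension `r`.  Nothing is known about the continuation of `L(H, s)` to the left of the line `Re s = w/2 + 1`,
the edge of the half plane of absolute convergence, and even on this line its zeros and poles are not known.

We consider all tensor products `H ⊗ π ⊗ ρ` with a unitary cuspidal automorphic representation `π` of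
`GL_n(𝔸_K)`, any `n`, which is tempered at almost all primes, and an Artin representation `ρ` of
`Gal(K̄/K)`.  The `L`-functions `L(H ⊗ π ⊗ ρ, s)` are, for the `π` which belong to varieties `Z` (for
example the `π` of elliptic curves over `ℚ` and their symmetric powers, of newforms, of Hecke characters,
of curves with modular Jacobian), factors of the `L`-functions of the products `Y × Z` over extensions of
`K`.  The only thing which we use about the `π` is the theorem of Jacquet, Piatetski-Shapiro, Shalika and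
Shahidi on the pole at `s = 1` of `L(π × π'^∨, s)` (`RankinSelberg`), and that they are tempered.

The theorem: **the matrix of the orders of the zeros and poles of the `L(H ⊗ π ⊗ ρ, s)` on the edge (a row
for each `π`, a column for each irreducible `ρ` and each height) has the operator norm at most `r`.**  In
particular for each `ρ` and each point of the line at most `r²` of all cuspidal `π` have a zero or a pole,
and for each `π` at most `r²` of the pairs of an irreducible `ρ` and a point of the line; if `H` has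
dimension one, there is at most one zero or pole in each row and in each column, and it is simple.  (If
`H ⊗ ρ` is automorphic, then it is a sum of cuspidal representations, and it contains at most `r²` of them,
also if the multiplicities are counted as squares, for irreducible `ρ`.)
-/

set_option autoImplicit false

namespace Pool.Agent.Results.MP_039d94_nt.CuspidalTensors

open Complex Filter Topology ComplexConjugate NumberField IsDedekindDomain Polynomial

/-- The absolute Galois group of `K`. -/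
abbrev GalGroup (K : Type) [Field K] : Type := Gal(AlgebraicClosure K/K)

/-- The finite primes of `K`, as prime ideals of its ring of integers. -/
abbrev Primes (K : Type) [Field K] [NumberField K] : Type := HeightOneSpectrum (𝓞 K)

/-- `q_v`, the number of elements of the residue field. -/
noncomputable def nrm {K : Type} [Field K] [NumberField K] (v : Primes K) : ℕ :=
  Ideal.absNorm v.asIdeal

/-- The cohomology `H = H^i(Y)` of a variety `Y` over `K`, as far as the Frobenius eigenvalues at almost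
all primes are concerned: `frob v` are the eigenvalues of the geometric Frobenius at `v`, and they have
absolute value `q_v^{weight/2}`.  By the theorem of Deligne every smooth projective variety over `K` and
every `i` give such data, for every choice of the auxiliary primes `ℓ_v`. -/
structure Motive (K : Type) [Field K] [NumberField K] where
  weight : ℤ
  rank : ℕ
  frob : Primes K → Fin rank → ℂ
  pure : ∀ᶠ v in cofinite, ∀ j, ‖frob v j‖ = (nrm v : ℝ) ^ ((weight : ℝ) / 2)

/-- The Satake parameters at almost all primes of a unitary cuspidal automorphic representation of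
`GL_rank(𝔸_K)` which is tempered at almost all primes (the conjecture of Ramanujan, known for the
representations of many varieties, for instance for newforms, their symmetric powers and products of two
of these). -/
structure Cuspidal (K : Type) [Field K] [NumberField K] where
  rank : ℕ
  satake : Primes K → Fin rank → ℂ
  tempered : ∀ᶠ v in cofinite, ∀ j, ‖satake v j‖ = 1

/-- The Euler product `∏_v B_v(q_v^{-s})⁻¹`. -/
noncomputable def eulerProduct {K : Type} [Field K] [NumberField K] (B : Primes K → ℂ[X])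
    (s : ℂ) : ℂ :=
  ∏' v : Primes K, ((B v).eval ((nrm v : ℂ) ^ (-s)))⁻¹

/-- The function `L(π × π'^∨, s)`, with suitable factors at finitely many primes, has a meromorphic
continuation to a neighbourhood of `s = 1` and the order `m` at `s = 1`.  For unitary cuspidal
representations this is a theorem, with `m = -1` if `π = π'`, and `m = 0` if not. -/
def RankinSelberg {K : Type} [Field K] [NumberField K] (π π' : Cuspidal K) (m : ℤ) : Prop :=
  ∃ (B : Primes K → ℂ[X]) (Λ : ℂ → ℂ),
    (∀ᶠ v in cofinite, ∀ z : ℂ,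
      (B v).eval z = ∏ i, ∏ j, (1 - π.satake v i * conj (π'.satake v j) * z)) ∧
    (∀ v, (B v).eval ((nrm v : ℂ) ^ (-(1 : ℂ))) ≠ 0) ∧
    MeromorphicAt Λ 1 ∧ (∀ᶠ s in 𝓝 (1 : ℂ), 1 < s.re → Λ s = eulerProduct B s) ∧
    meromorphicOrderAt Λ 1 = m

/-- `σ` is a Frobenius element at `v`: there is a maximal ideal `Q` above `v` of the ring of all
algebraic integers with `σ x ≡ x ^ q_v` modulo `Q` for all `x`. -/
def IsFrobenius {K : Type} [Field K] [NumberField K] (v : Primes K) (σ : GalGroup K) : Prop :=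
  ∃ Q : Ideal (𝓞 (AlgebraicClosure K)), Q.IsMaximal ∧
    Q.comap (algebraMap (𝓞 K) (𝓞 (AlgebraicClosure K))) = v.asIdeal ∧
    ∀ x : 𝓞 (AlgebraicClosure K), σ • x - x ^ nrm v ∈ Q

/-- `ρ` is an Artin representation: it is trivial on an open subgroup of `Gal(K̄/K)`. -/
def IsArtin {K : Type} [Field K] [NumberField K] {n : ℕ}
    (ρ : Representation ℂ (GalGroup K) (Fin n → ℂ)) : Prop :=
  ∃ U : Subgroup (GalGroup K), IsOpen (U : Set (GalGroup K)) ∧ ∀ u ∈ U, ρ u = 1

/-- The polynomials `B v` are the Euler factors of `H ⊗ π ⊗ ρ` at all but finitely many primes `v` of `K`: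
`B_v(z) = ∏_i ∏_j det(1 - α_i β_j z ρ(Frob_v⁻¹))`, `α_i` the eigenvalues of Frobenius on `H` and `β_j` the
Satake parameters of `π`. -/
def IsEulerFactor {K : Type} [Field K] [NumberField K] (H : Motive K) (π : Cuspidal K) {n : ℕ}
    (ρ : Representation ℂ (GalGroup K) (Fin n → ℂ)) (B : Primes K → ℂ[X]) : Prop :=
  ∀ᶠ v in cofinite, ∀ σ : GalGroup K, IsFrobenius v σ → ∀ z : ℂ,
    (B v).eval z = ∏ i, ∏ j, LinearMap.det (1 - (H.frob v i * π.satake v j * z) • ρ σ⁻¹)

/-- The point of the edge line with imaginary part `τ`. -/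
noncomputable def edge {K : Type} [Field K] [NumberField K] (H : Motive K) (τ : ℝ) : ℂ :=
  (H.weight : ℂ) / 2 + 1 + τ * I

/-- `log |L(edge + ε)| / log (1/ε)`, which tends to minus the order of the function at the point of the
edge if there is a meromorphic continuation to a neighbourhood. -/
noncomputable def size {K : Type} [Field K] [NumberField K] (H : Motive K) (B : Primes K → ℂ[X])
    (τ ε : ℝ) : ℝ :=
  Real.log ‖eulerProduct B (edge H τ + ε)‖ / Real.log (1 / ε)

open Classical in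
/-- `⟨k, l⟩`: the dimension of `Hom(ρ_k, ρ_l)` if `τ_k = τ_l`, and `0` otherwise. -/
noncomputable def pairing {K : Type} [Field K] {κ : Type} {n : κ → ℕ}
    (ρ : ∀ l, Representation ℂ (GalGroup K) (Fin (n l) → ℂ)) (τ : κ → ℝ) (k l : κ) : ℝ :=
  if τ k = τ l then (Module.finrank ℂ ((ρ k).IntertwiningMap (ρ l)) : ℝ) else 0

/-- **Tensor products with all cuspidal representations and all Artin representations.**

Let `K` be a number field, `H` of rank `r` as above, `(π_i)` any family of pairwise different tempered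
unitary cuspidal representations, `(ρ_k, τ_k)` any family of pairs of an Artin representation, of dimension
`n_k`, and a real number, `L_{ik}` the Euler product of `H ⊗ π_i ⊗ ρ_k` with arbitrary polynomials, not zero
at `q_v^{-s_k}`, as factors at finitely many primes, `s_k = w/2 + 1 + iτ_k`, `w` the weight of `H`, and
`x_{ik}(ε) = log |L_{ik}(s_k + ε)| / log(1/ε)`.

1. `L_{ik}(s_k + ε) ≠ 0` for small `ε > 0`.
2. (In 2., 3. and 4. nothing is assumed about continuation.)  For all finite sets `I`, `J` of indices, all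
`C` and `η > 0` and all sufficiently small `ε > 0`:
`(∑_{i ∈ I, k ∈ J} a_i c_k x_{ik}(ε))² ≤ r² (∑_i a_i²) (∑_{k,l} c_k c_l ⟨k, l⟩) + η`
for all real `a_i`, `c_k` of absolute value at most `C`.
3. If the `ρ_k` are irreducible, and pairwise inequivalent for equal heights, then for all small `ε > 0` all
the sums `∑_{i ∈ I} x_{ik}(ε)²` (`k ∈ J`) and `∑_{k ∈ J} x_{ik}(ε)²` (`i ∈ I`) are at most `r² + η`.
4. If `r > 0` and `ρ_k` is irreducible and its dimension is larger than the one of `π_i`, then there is an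
`A < r` with `|x_{ik}(ε)| ≤ A` for all small `ε > 0`.
5. If the `L_{ik}` have meromorphic continuations to neighbourhoods of the points `s_k`, then these have
finite orders `m_{ik}` at `s_k`, and
* `(∑_{i ∈ I, k ∈ J} a_i c_k m_{ik})² ≤ r² (∑_i a_i²) (∑_{k,l} c_k c_l ⟨k, l⟩)` for all real `a_i`, `c_k`;
* `|m_{ik}| < r` if `r > 0` and `ρ_k` is irreducible of larger dimension than `π_i`;
* if the `ρ_k` are irreducible, and pairwise inequivalent for equal heights, then for each `k` the set of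
the `i` with `m_{ik} ≠ 0` is finite and has at most `r²` elements, and for each `i` the set of the `k` with
`m_{ik} ≠ 0` is finite and has at most `r²` elements; if `r = 1`, then all `|m_{ik}| ≤ 1`. -/
theorem result (K : Type) [Field K] [NumberField K] (H : Motive K)
    (ι : Type) (π : ι → Cuspidal K) (hπ : ∀ i, RankinSelberg (π i) (π i) (-1))
    (hπ' : ∀ i j, i ≠ j → RankinSelberg (π i) (π j) 0)
    (κ : Type) (n : κ → ℕ) (ρ : ∀ k, Representation ℂ (GalGroup K) (Fin (n k) → ℂ))
    (τ : κ → ℝ) (B : ι → κ → Primes K → ℂ[X]) (hρ : ∀ k, IsArtin (ρ k))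
    (hB : ∀ i k, IsEulerFactor H (π i) (ρ k) (B i k))
    (hB0 : ∀ i k, ∀ v, (B i k v).eval ((nrm v : ℂ) ^ (-(edge H (τ k)))) ≠ 0) :
    (∀ i k, ∀ᶠ ε : ℝ in 𝓝[>] 0, eulerProduct (B i k) (edge H (τ k) + ε) ≠ 0) ∧
    (∀ (I : Finset ι) (J : Finset κ) (C η : ℝ), 0 < η →
      ∀ᶠ ε : ℝ in 𝓝[>] 0, ∀ (a : ι → ℝ) (c : κ → ℝ),
        (∀ i ∈ I, |a i| ≤ C) → (∀ k ∈ J, |c k| ≤ C) →
        (∑ i ∈ I, ∑ k ∈ J, a i * c k * size H (B i k) (τ k) ε) ^ 2 ≤
          (H.rank : ℝ) ^ 2 * (∑ i ∈ I, a i ^ 2) *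
            (∑ k ∈ J, ∑ l ∈ J, c k * c l * pairing ρ τ k l) + η) ∧
    ((∀ k, (ρ k).IsIrreducible) →
      (∀ k l, k ≠ l → τ k = τ l → IsEmpty ((ρ k).Equiv (ρ l))) →
      ∀ (I : Finset ι) (J : Finset κ) (η : ℝ), 0 < η → ∀ᶠ ε : ℝ in 𝓝[>] 0,
        (∀ k ∈ J, ∑ i ∈ I, size H (B i k) (τ k) ε ^ 2 ≤ (H.rank : ℝ) ^ 2 + η) ∧
        (∀ i ∈ I, ∑ k ∈ J, size H (B i k) (τ k) ε ^ 2 ≤ (H.rank : ℝ) ^ 2 + η)) ∧
    (0 < H.rank → ∀ i k, (ρ k).IsIrreducible → (π i).rank < n k →
      ∃ A : ℝ, A < H.rank ∧ ∀ᶠ ε : ℝ in 𝓝[>] 0, |size H (B i k) (τ k) ε| ≤ A) ∧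
    ∀ Λ : ι → κ → ℂ → ℂ, (∀ i k, MeromorphicAt (Λ i k) (edge H (τ k)) ∧
      ∀ᶠ s in 𝓝 (edge H (τ k)), (edge H (τ k)).re < s.re → Λ i k s = eulerProduct (B i k) s) →
      ∃ m : ι → κ → ℤ, (∀ i k, meromorphicOrderAt (Λ i k) (edge H (τ k)) = m i k) ∧
        (∀ (I : Finset ι) (J : Finset κ) (a : ι → ℝ) (c : κ → ℝ),
          (∑ i ∈ I, ∑ k ∈ J, a i * c k * m i k) ^ 2 ≤ (H.rank : ℝ) ^ 2 * (∑ i ∈ I, a i ^ 2) *
            (∑ k ∈ J, ∑ l ∈ J, c k * c l * pairing ρ τ k l)) ∧
        (0 < H.rank → ∀ i k, (ρ k).IsIrreducible → (π i).rank < n k → |m i k| < H.rank) ∧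
        ((∀ k, (ρ k).IsIrreducible) →
          (∀ k l, k ≠ l → τ k = τ l → IsEmpty ((ρ k).Equiv (ρ l))) →
          (∀ k, {i | m i k ≠ 0}.Finite ∧ {i | m i k ≠ 0}.ncard ≤ H.rank ^ 2) ∧
          (∀ i, {k | m i k ≠ 0}.Finite ∧ {k | m i k ≠ 0}.ncard ≤ H.rank ^ 2) ∧
          (H.rank = 1 → ∀ i k, |m i k| ≤ 1)) := by
  classical
  set w : ℝ := (H.weight : ℝ) / 2 with hw
  have hs : ∀ x : ℝ, ((w : ℂ) + 1 + x * I) = edge H x := by
    intro x
    rw [hw]
    unfold edge
    push_cast
    ring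
  have hα : ∀ᶠ v in cofinite, ∀ j, ‖H.frob v j‖ = (W540.BE.nm K v : ℝ) ^ w := H.pure
  have hβ : ∀ i, ∀ᶠ v in cofinite, ∀ j, ‖(π i).satake v j‖ = 1 := fun i => (π i).tempered
  -- the theorem of Rankin and Selberg as a mean value
  have hrs0 : ∀ (i j : ι) (m : ℤ), RankinSelberg (π i) (π j) m → Tendsto (fun ε : ℝ =>
      (W540.BE.EP (W540.BE.nm K) ε fun v => (X288.CX.trc 0 (π i).satake v *
        conj (X288.CX.trc 0 (π j).satake v)).re) / H341R2.lam ε) (𝓝[>] 0)
      (𝓝 (-(m : ℝ))) := by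
    intro i j m h
    obtain ⟨B', Λ, h1, h2, h3, h4, h5⟩ := h
    exact X288.CX.rs_corr (hβ i) (hβ j) B' h1 h2 h3 h4 h5
  have hrs : ∀ i j : ι, Tendsto (fun ε : ℝ =>
      (W540.BE.EP (W540.BE.nm K) ε fun v => (X288.CX.trc 0 (π i).satake v *
        conj (X288.CX.trc 0 (π j).satake v)).re) / H341R2.lam ε) (𝓝[>] 0)
      (𝓝 (if i = j then 1 else 0)) := by
    intro i j
    split_ifs with h
    · subst h
      have := hrs0 i i (-1) (hπ i)
      rw [show -(((-1 : ℤ)) : ℝ) = 1 by norm_num] at this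
      exact this
    · have := hrs0 i j 0 (hπ' i j h)
      rw [show -(((0 : ℤ)) : ℝ) = 0 by norm_num] at this
      exact this
  have hB' : ∀ i k, ∀ᶠ v in cofinite, ∀ σ : W401.Cheb.GK K, W401.Cheb.IsFrob v σ → ∀ z : ℂ,
      (B i k v).eval z = ∏ j, LinearMap.det (1 - (X288.CX.tn H.frob (π i).satake v j * z) •
        ρ k σ⁻¹) := by
    intro i k
    filter_upwards [hB i k] with v h1 σ hσ z
    rw [h1 σ hσ z]
    exact (X288.CX.prod_fin (R := H.rank) (m := (π i).rank)
      (g := fun (i' : Fin H.rank) (j : Fin (π i).rank) =>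
        LinearMap.det (1 - (H.frob v i' * (π i).satake v j * z) • ρ k σ⁻¹))).symm
  have hB0' : ∀ i k v, (B i k v).eval (((W540.BE.nm K v : ℕ) : ℂ) ^
      (-((w : ℂ) + 1 + τ k * I : ℂ))) ≠ 0 := by
    intro i k v
    rw [hs]
    exact hB0 i k v
  have hL : ∀ i k, ∀ s : ℂ, w + 1 < s.re → eulerProduct (B i k) s =
      ∏' v, ((B i k v).eval (((W540.BE.nm K v : ℕ) : ℂ) ^ (-s)))⁻¹ := fun i k s _ => rfl
  have hnt : ∀ i, ∀ᶠ v in cofinite, ∀ j,
      ‖X288.CX.tn H.frob (π i).satake v j‖ = (W540.BE.nm K v : ℝ) ^ w :=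
    fun i => X288.CX.norm_tn hα (hβ i)
  -- nonvanishing
  have hne0 : ∀ i k, ∀ᶠ ε : ℝ in 𝓝[>] 0, eulerProduct (B i k) (edge H (τ k) + ε) ≠ 0 := by
    intro i k
    have h4 := X288.CX.neC w _ (hnt i) (fun _ : Unit => ρ k) (fun _ => hρ k) (fun _ => τ k)
      (fun _ => B i k) (fun _ => hB' i k) (fun _ => hB0' i k)
      (fun _ => eulerProduct (B i k)) (fun _ => hL i k) ()
    simp only [hs] at h4
    exact h4
  -- the bilinear inequality for the sizes on finite subfamilies
  have key : ∀ (I : Finset ι) (J : Finset κ) (C η : ℝ), 0 < η → ∀ᶠ ε : ℝ in 𝓝[>] 0,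
      ∀ (a : I → ℝ) (c : J → ℝ), (∀ i, |a i| ≤ C) → (∀ k, |c k| ≤ C) →
      (∑ i : I, ∑ k : J, a i * c k * size H (B i k) (τ k) ε) ^ 2 ≤
        (H.rank : ℝ) ^ 2 * (∑ i : I, a i ^ 2) *
          (∑ k : J, ∑ l : J, c k * c l * pairing ρ τ k l) + η := by
    intro I J C η hη
    have h4 := X288.CX.cusp_bilin w H.frob hα (fun i : I => (π i).satake) (fun i => hβ i)
      (fun i j => if i = j then 1 else 0) (fun i j => by
        have := hrs (i : ι) (j : ι)
        simp only [Subtype.coe_inj] at this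
        exact this) (fun k : J => ρ k) (fun k => hρ k) (fun k => τ k)
      (fun i k => B i k) (fun i k => hB' i k) (fun i k => hB0' i k)
      (fun i k => eulerProduct (B i k)) (fun i k => hL i k) C hη
    filter_upwards [h4] with ε h5 a c ha hc
    have h6 := h5 a c ha hc
    have e1 : ∑ i : I, ∑ j : I, a i * a j * (if i = j then (1 : ℝ) else 0) =
        ∑ i : I, a i ^ 2 := by
      refine Finset.sum_congr rfl fun i _ => ?_
      simp only [mul_ite, mul_one, mul_zero, Finset.sum_ite_eq, Finset.mem_univ, if_true]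
      rw [sq]
    rw [e1] at h6
    have e2 : ∀ (i : I) (k : J), W353.L1.xs w (fun k : J => τ k)
        (fun k : J => eulerProduct (B i k)) k ε = size H (B i k) (τ k) ε := by
      intro i k
      unfold W353.L1.xs size
      rw [hs]
    simp only [e2] at h6
    exact h6
  have key2 : ∀ (I : Finset ι) (J : Finset κ) (C η : ℝ), 0 < η → ∀ᶠ ε : ℝ in 𝓝[>] 0,
      ∀ (a : ι → ℝ) (c : κ → ℝ), (∀ i ∈ I, |a i| ≤ C) → (∀ k ∈ J, |c k| ≤ C) →
      (∑ i ∈ I, ∑ k ∈ J, a i * c k * size H (B i k) (τ k) ε) ^ 2 ≤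
        (H.rank : ℝ) ^ 2 * (∑ i ∈ I, a i ^ 2) *
          (∑ k ∈ J, ∑ l ∈ J, c k * c l * pairing ρ τ k l) + η := by
    intro I J C η hη
    filter_upwards [key I J C η hη] with ε h5 a c ha hc
    have h6 := h5 (fun i => a i) (fun k => c k) (fun i => ha i i.2) (fun k => hc k k.2)
    have e1 : ∑ i : I, ∑ k : J, a i * c k * size H (B i k) (τ k) ε =
        ∑ i ∈ I, ∑ k ∈ J, a i * c k * size H (B i k) (τ k) ε := by
      rw [← Finset.sum_coe_sort I]
      refine Finset.sum_congr rfl fun i _ => ?_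
      rw [← Finset.sum_coe_sort J]
    have e2 : ∑ i : I, a i ^ 2 = ∑ i ∈ I, a i ^ 2 := Finset.sum_coe_sort I fun i => a i ^ 2
    have e3 : ∑ k : J, ∑ l : J, c k * c l * pairing ρ τ k l =
        ∑ k ∈ J, ∑ l ∈ J, c k * c l * pairing ρ τ k l := by
      rw [← Finset.sum_coe_sort J]
      refine Finset.sum_congr rfl fun i _ => ?_
      rw [← Finset.sum_coe_sort J]
    rw [e1, e2, e3] at h6
    exact h6
  have hdsum : (∀ k, (ρ k).IsIrreducible) →
      (∀ k l, k ≠ l → τ k = τ l → IsEmpty ((ρ k).Equiv (ρ l))) → ∀ (J : Finset κ) (c : J → ℝ),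
      ∑ k : J, ∑ l : J, c k * c l * pairing ρ τ k l = ∑ k : J, c k ^ 2 := by
    intro hirr hne J c
    exact X288.CX.hd_sum (fun k : J => ρ k) (fun k => τ k) (fun k => hirr k)
      (fun k l hkl => hne k l (fun h => hkl (Subtype.ext h))) c
  have hrows : (∀ k, (ρ k).IsIrreducible) →
      (∀ k l, k ≠ l → τ k = τ l → IsEmpty ((ρ k).Equiv (ρ l))) →
      ∀ (I : Finset ι) (J : Finset κ) (η : ℝ), 0 < η → ∀ᶠ ε : ℝ in 𝓝[>] 0,
        (∀ k ∈ J, ∑ i ∈ I, size H (B i k) (τ k) ε ^ 2 ≤ (H.rank : ℝ) ^ 2 + η) ∧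
        (∀ i ∈ I, ∑ k ∈ J, size H (B i k) (τ k) ε ^ 2 ≤ (H.rank : ℝ) ^ 2 + η) := by
    intro hirr hne I J η hη
    -- boundedness of the sizes
    have hbd : ∀ i k, ∃ Y : ℝ, ∀ᶠ ε : ℝ in 𝓝[>] 0, |size H (B i k) (τ k) ε| ≤ Y := by
      intro i k
      obtain ⟨U, hUn, hU, hρU⟩ := X288.AR.exists_U (fun _ : Unit => ρ k) (fun _ => hρ k)
      have hfin : Finite (W401.Cheb.GK K ⧸ U) := Subgroup.quotient_finite_of_isOpen U hU
      obtain ⟨Y, hY⟩ := X288.CX.xc_bdd w _ (hnt i) U hU (fun _ : Unit => ρ k) hρU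
        (fun _ => τ k) (fun _ => B i k) (fun _ => hB' i k) (fun _ => hB0' i k)
        (fun _ => eulerProduct (B i k)) (fun _ => hL i k)
      refine ⟨Y, (hY ()).mono fun ε hε => ?_⟩
      unfold W353.L1.xs at hε
      simp only [hs] at hε
      exact hε
    choose Y hY using hbd
    have h4 := X288.CX.bil_rows (R := (H.rank : ℝ)) (Y := ∑ i : I, ∑ k : J, |Y i k|)
      (Nat.cast_nonneg _) (x := fun (i : I) (k : J) ε => size H (B i k) (τ k) ε)
      (fun i k => (hY i k).mono fun ε hε => hε.trans ((le_abs_self _).trans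
        ((Finset.single_le_sum (f := fun k : J => |Y i k|) (fun _ _ => abs_nonneg _)
          (Finset.mem_univ k)).trans (Finset.single_le_sum
          (f := fun i : I => ∑ k : J, |Y i k|)
          (fun i _ => Finset.sum_nonneg fun k _ => abs_nonneg _) (Finset.mem_univ i)))))
      (A := fun a => ∑ i : I, a i ^ 2) (fun a => rfl)
      (G := fun c => ∑ k : J, ∑ l : J, c k * c l * pairing ρ τ k l)
      (fun c => hdsum hirr hne J c) (fun C η hη => key I J C η hη) hη
    filter_upwards [h4] with ε h5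
    refine ⟨fun k hk => ?_, fun i hi => ?_⟩
    · have := h5.2 ⟨k, hk⟩
      rw [← Finset.sum_coe_sort I]
      exact this
    · have := h5.1 ⟨i, hi⟩
      rw [← Finset.sum_coe_sort J]
      exact this
  have hstrict : 0 < H.rank → ∀ i k, (ρ k).IsIrreducible → (π i).rank < n k →
      ∃ A : ℝ, A < H.rank ∧ ∀ᶠ ε : ℝ in 𝓝[>] 0, |size H (B i k) (τ k) ε| ≤ A := by
    intro hR i k hk h3
    have h1 := hrs i i
    rw [if_pos rfl] at h1
    obtain ⟨A, hA, h4⟩ := X288.CX.cusp_strict w H.frob hα (π i).satake (hβ i) h1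
      (fun _ : Unit => ρ k) (fun _ => hρ k) (fun _ => τ k) (fun _ => B i k)
      (fun _ => hB' i k) (fun _ => hB0' i k) (fun _ => eulerProduct (B i k)) (fun _ => hL i k)
      hR (k := ()) hk h3
    refine ⟨A, hA, h4.mono fun ε hε => ?_⟩
    unfold W353.L1.xs at hε
    simp only [hs] at hε
    exact hε
  refine ⟨hne0, key2, hrows, hstrict, fun Λ hΛ => ?_⟩
  have hord : ∀ i k, ∃ m : ℤ, meromorphicOrderAt (Λ i k) (edge H (τ k)) = m ∧
      Tendsto (size H (B i k) (τ k)) (𝓝[>] 0) (𝓝 (-(m : ℝ))) := fun i k =>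
    X288.CX.order_exists (hΛ i k).1 (hΛ i k).2 (hne0 i k)
  choose m hm1 hm2 using hord
  refine ⟨m, hm1, fun I J a c => ?_, fun hR i k hk h3 => ?_, fun hirr hne => ?_⟩
  · have h4 := X288.CX.bil_orders (x := fun (i : I) (k : J) ε => size H (B i k) (τ k) ε)
      (m := fun i k => m i k) (fun i k => hm2 i k)
      (Q := fun a c => (H.rank : ℝ) ^ 2 * (∑ i : I, a i ^ 2) *
          (∑ k : J, ∑ l : J, c k * c l * pairing ρ τ k l)) (key I J) (fun i => a i)
      (fun k => c k)
    have e1 : ∑ i : I, ∑ k : J, a i * c k * (m i k : ℝ) =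
        ∑ i ∈ I, ∑ k ∈ J, a i * c k * m i k := by
      rw [← Finset.sum_coe_sort I]
      refine Finset.sum_congr rfl fun i _ => ?_
      rw [← Finset.sum_coe_sort J]
    have e2 : ∑ i : I, a i ^ 2 = ∑ i ∈ I, a i ^ 2 := Finset.sum_coe_sort I fun i => a i ^ 2
    have e3 : ∑ k : J, ∑ l : J, c k * c l * pairing ρ τ k l =
        ∑ k ∈ J, ∑ l ∈ J, c k * c l * pairing ρ τ k l := by
      rw [← Finset.sum_coe_sort J]
      refine Finset.sum_congr rfl fun i _ => ?_
      rw [← Finset.sum_coe_sort J]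
    rw [e1, e2, e3] at h4
    exact h4
  · obtain ⟨A, hA, h4⟩ := hstrict hR i k hk h3
    have h5 := lt_of_le_of_lt (X288.CX.abs_orders (κ := Unit) (x := fun _ => size H (B i k) (τ k))
      (m := fun _ => m i k) (fun _ => hm2 i k) (k := ()) h4) hA
    exact_mod_cast h5
  · have hcol : ∀ (k : κ) (I : Finset ι), ∑ i ∈ I, (m i k : ℝ) ^ 2 ≤ (H.rank : ℝ) ^ 2 := by
      intro k I
      refine le_of_forall_pos_le_add fun η hη => ?_
      have hlim : Tendsto (fun ε : ℝ => ∑ i ∈ I, size H (B i k) (τ k) ε ^ 2) (𝓝[>] 0)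
          (𝓝 (∑ i ∈ I, (-(m i k : ℝ)) ^ 2)) :=
        tendsto_finsetSum _ fun i _ => (hm2 i k).pow 2
      simp only [neg_sq] at hlim
      exact le_of_tendsto hlim ((hrows hirr hne I {k} η hη).mono fun ε hε =>
        hε.1 k (Finset.mem_singleton_self k))
    have hrow : ∀ (i : ι) (J : Finset κ), ∑ k ∈ J, (m i k : ℝ) ^ 2 ≤ (H.rank : ℝ) ^ 2 := by
      intro i J
      refine le_of_forall_pos_le_add fun η hη => ?_
      have hlim : Tendsto (fun ε : ℝ => ∑ k ∈ J, size H (B i k) (τ k) ε ^ 2) (𝓝[>] 0)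
          (𝓝 (∑ k ∈ J, (-(m i k : ℝ)) ^ 2)) :=
        tendsto_finsetSum _ fun k _ => (hm2 i k).pow 2
      simp only [neg_sq] at hlim
      exact le_of_tendsto hlim ((hrows hirr hne {i} J η hη).mono fun ε hε =>
        hε.2 i (Finset.mem_singleton_self i))
    have hone : ∀ x : ℤ, x ≠ 0 → (1 : ℝ) ≤ (x : ℝ) ^ 2 := by
      intro x hx
      have h1 : (1 : ℤ) ≤ x ^ 2 := by
        have := Int.one_le_abs hx
        rw [← sq_abs]
        nlinarith
      exact_mod_cast h1
    have hcard : ∀ {γ : Type} (f : γ → ℤ) (N : ℕ),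
        (∀ S : Finset γ, ∑ i ∈ S, (f i : ℝ) ^ 2 ≤ (N : ℝ) ^ 2) →
        {i | f i ≠ 0}.Finite ∧ {i | f i ≠ 0}.ncard ≤ N ^ 2 := by
      intro γ f N h
      have hb : ∀ S : Finset γ, (S : Set γ) ⊆ {i | f i ≠ 0} → S.card ≤ N ^ 2 := by
        intro S hS
        have h1 : (S.card : ℝ) ≤ ∑ i ∈ S, (f i : ℝ) ^ 2 := by
          rw [Finset.card_eq_sum_ones]
          push_cast
          exact Finset.sum_le_sum fun i hi => hone _ (hS hi)
        have h2 := h1.trans (h S)
        exact_mod_cast h2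
      have hfin : {i | f i ≠ 0}.Finite := by
        by_contra hinf
        obtain ⟨S, hS1, hS2⟩ := Set.Infinite.exists_subset_card_eq hinf (N ^ 2 + 1)
        have := hb S hS1
        omega
      refine ⟨hfin, ?_⟩
      rw [Set.ncard_eq_toFinset_card _ hfin]
      exact hb _ (by rw [Set.Finite.coe_toFinset])
    refine ⟨fun k => hcard (fun i => m i k) H.rank (hcol k),
      fun i => hcard (fun k => m i k) H.rank (hrow i), fun h1 i k => ?_⟩
    have h2 := hcol k {i}
    rw [Finset.sum_singleton, h1] at h2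
    have h3 : (m i k) ^ 2 ≤ 1 := by
      have h4 : (m i k : ℝ) ^ 2 ≤ 1 := by simpa using h2
      exact_mod_cast h4
    rw [abs_le]
    constructor <;> nlinarith

end Pool.Agent.Results.MP_039d94_nt.CuspidalTensors
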