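import Pool.Agent.X22.ND7

/-!
# L-functions of complete intersections of any dimension from arbitrarily thin families, with all twists and at all heights:
bounds of GRH strength for the primitive cohomology

Nothing is used besides Mathlib in the statement.
-/

set_option autoImplicit false

namespace Pool.Agent.Results.MP_039d94_nt.FewDigitCompleteIntersections

open Finset

/-- The value modulo `p` at `u` of the form number `i < s` of the system: the sum of `m l u ^ (E l)` over the `l < d` with `c l = i`. -/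
def form {p s d n : ℕ} (c : Fin d → Fin s) (E : Fin d → (Fin n → ℕ)) (m : Fin d → ℕ) (i : Fin s) (u : Fin n → ZMod p) : ZMod p :=
  ∑ l ∈ univ.filter (fun l => c l = i), (m l : ZMod p) * ∏ j, u j ^ E l j

/-- The number of the points modulo `p` of the intersection `X_m ⊆ ℙ ^ (n - 1)` of the `s` hypersurfaces of the system: the number of the nonzero vectors at
which all forms vanish, divided by `p - 1`. -/
noncomputable def points (p : ℕ) {s d n : ℕ} (c : Fin d → Fin s) (E : Fin d → (Fin n → ℕ)) (m : Fin d → ℕ) : ℝ :=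
  (Nat.card {u : Fin n → ZMod p // u ≠ 0 ∧ ∀ i, form c E m i u = 0} : ℝ) / (p - 1)

/-- `D_p = (#X_m (𝔽_p) - #ℙ ^ (n - 1) (𝔽_p) / p ^ s) / p ^ (k / 2)`, where `k = n - 1 - s`. Here `#ℙ ^ (n - 1) (𝔽_p) / p ^ s = #ℙ ^ k (𝔽_p) + O (1 / p)`.
If `X_m` is smooth of dimension `k`, this is up to `O (p ^ (-1 - k / 2))` the trace of Frobenius on the primitive part of `H^k (X_m)`, with the sign `(-1) ^ k` and
normalised by `p ^ (k / 2)` (theorem of Lefschetz). -/
noncomputable def prim (p : ℕ) {s d n : ℕ} (c : Fin d → Fin s) (E : Fin d → (Fin n → ℕ)) (m : Fin d → ℕ) : ℝ :=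
  (points p c E m - ((p : ℝ) ^ n - 1) / (p - 1) / (p : ℝ) ^ s) / (Real.sqrt p) ^ (n - 1 - s)

open Classical in
/-- The partial sum `∑ w (p) D_p (log p) p ^ (- i τ)` over the odd primes `p ≤ x` for which `|D_p| ≤ p ^ (1 / 2)`; by Deligne's theorem this
holds for all primes of good reduction larger than a bound which depends on the Betti number only. -/
noncomputable def partialSum {s d n : ℕ} (c : Fin d → Fin s) (E : Fin d → (Fin n → ℕ)) (m : Fin d → ℕ) (w : ℕ → ℂ) (τ : ℝ) (x : ℕ) : ℂ :=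
  ∑ p ∈ (range (x + 1)).filter (fun p => (p.Prime ∧ p ≠ 2) ∧ |prim p c E m| ≤ Real.sqrt p),
    w p * ((prim p c E m * Real.log p : ℝ) : ℂ) * Complex.exp (((-(τ * Real.log p) : ℝ) : ℂ) * Complex.I)

/-- The digit number `i` (counted from the right, beginning with `0`) of `n` in base `b`. -/
def digit (b i n : ℕ) : ℕ := n / b ^ i % b

/-- The number which arises from the number `N` with at most `K` digits in base `b`, if for every `i ∈ S`
the digit number `i` is replaced by `f i`. -/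
def change (b K N : ℕ) (f : ℕ → ℕ) (S : Finset ℕ) : ℕ :=
  ∑ i ∈ range K, (if i ∈ S then f i else digit b i N) * b ^ i

open Classical in
/-- The number of the choices of `r l` of `K l` positions for all `l < d` for which the vector of the numbers obtained by
changing the digits of the `N l` at the chosen positions (according to `f l`) does not have the property `E`. -/
noncomputable def exceptions {d : ℕ} (b : ℕ) (K r N : Fin d → ℕ) (f : Fin d → ℕ → ℕ) (E : (Fin d → ℕ) → Prop) : ℕ :=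
  ((Fintype.piFinset (fun l => powersetCard (r l) (range (K l)))).filter
    (fun S => ¬ E (fun l => change b (K l) (N l) (f l) (S l)))).card

open Pool.Agent.X22.ND (op mem_op mzd_law absorb hp norm_hp mean_mono mean_zmod trunc trunc_le trunc_sq mean_trunc sum_inv_sqrt cardop_le abs_mean_le)
open Pool.Agent.X22.SEC
open Pool.Agent.TH894.NE (mean mean_mul mean_const)

open Classical in
/-- the nonzero vectors -/
noncomputable def nz (n p : ℕ) (hp' : p.Prime) : Finset (Fin n → ZMod p) :=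
  haveI : Fact p.Prime := ⟨hp'⟩
  univ.filter (fun u => u ≠ 0)

lemma nz_ne (n p : ℕ) (hp' : p.Prime) : ∀ u ∈ nz n p hp', u ≠ 0 := by
  intro u hu
  unfold nz at hu
  rw [mem_filter] at hu
  exact hu.2

lemma card_nz (n p : ℕ) (hp' : p.Prime) : ((nz n p hp').card : ℝ) = (p : ℝ) ^ n - 1 := by
  classical
  have hf : Fact p.Prime := ⟨hp'⟩
  have h1 : nz n p hp' = univ.erase (0 : Fin n → ZMod p) := by
    unfold nz
    ext u
    simp
  rw [h1, card_erase_of_mem (mem_univ _), card_univ, Fintype.card_fun, Fintype.card_fin, ZMod.card, Nat.cast_sub (Nat.one_le_pow _ _ hp'.pos)]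
  push_cast
  ring

lemma prim_eq {s d n : ℕ} (c : Fin d → Fin s) (E : Fin d → (Fin n → ℕ)) (m : Fin d → ℕ) (p : ℕ) (hp' : p.Prime) :
    prim p c E m = (1 / (((p : ℝ) - 1) * (Real.sqrt p) ^ (n - 1 - s))) * ∑ u ∈ nz n p hp', phs p s (LF c (mv E u) (fun l => (m l : ZMod p))) := by
  classical
  have hf : Fact p.Prime := ⟨hp'⟩
  have hp0 : (0 : ℝ) < p := by exact_mod_cast hp'.pos
  have hp1 : (p : ℝ) - 1 ≠ 0 := by
    have : (1 : ℝ) < p := by exact_mod_cast hp'.one_lt
    linarith
  have hs : Real.sqrt (p : ℝ) ≠ 0 := (Real.sqrt_pos.2 hp0).ne'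
  have h1 : (Nat.card {u : Fin n → ZMod p // u ≠ 0 ∧ ∀ i, form c E m i u = 0} : ℝ) =
      ∑ u ∈ nz n p hp', (if LF c (mv E u) (fun l => (m l : ZMod p)) = 0 then 1 else 0 : ℝ) := by
    rw [Nat.card_eq_fintype_card, Fintype.card_subtype, ← filter_filter, sum_ite, sum_const_zero, add_zero, sum_const, nsmul_eq_mul, mul_one]
    congr 2
    unfold nz
    ext u
    rw [mem_filter, mem_filter, mem_filter, mem_filter]
    refine and_congr_right (fun _ => ?_)
    constructor
    · intro h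
      funext i
      exact h i
    · intro h i
      exact congrFun h i
  unfold prim points phs
  rw [h1, sum_sub_distrib, sum_const, nsmul_eq_mul, card_nz n p hp']
  field_simp

lemma mean_prim {s d n : ℕ} (c : Fin d → Fin s) (E : Fin d → (Fin n → ℕ)) (e : Fin s → ℕ) (he : ∀ i, 1 ≤ e i)
    (hE : ∀ i j j', ∃ l, c l = i ∧ E l = Pi.single j (e i - 1) + Pi.single j' 1) (p : ℕ) (hp' : p.Prime) :
    mean d p (fun m => prim p c E m) = 0 := by
  have hf : Fact p.Prime := ⟨hp'⟩
  have h3 : (fun m : Fin d → ℕ => prim p c E m) = fun m : Fin d → ℕ =>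
      (fun z : Fin d → ZMod p => (1 / (((p : ℝ) - 1) * (Real.sqrt p) ^ (n - 1 - s))) * ∑ u ∈ nz n p hp', phs p s (LF c (mv E u) z)) (fun i => (m i : ZMod p)) := by
    funext m
    rw [prim_eq c E m p hp']
  have h4 : mean d p (fun m => prim p c E m) =
      (∑ z : Fin d → ZMod p, (1 / (((p : ℝ) - 1) * (Real.sqrt p) ^ (n - 1 - s))) * ∑ u ∈ nz n p hp', phs p s (LF c (mv E u) z)) / (p : ℝ) ^ d := by
    rw [h3]
    exact mean_zmod d p hp' (fun z => (1 / (((p : ℝ) - 1) * (Real.sqrt p) ^ (n - 1 - s))) * ∑ u ∈ nz n p hp', phs p s (LF c (mv E u) z))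
  rw [h4, ← mul_sum, sec_mean E c e he hE _ (nz_ne n p hp')]
  simp

lemma mean_prim_sq {s d n : ℕ} (hsn : s < n) (c : Fin d → Fin s) (E : Fin d → (Fin n → ℕ)) (e : Fin s → ℕ) (he : ∀ i, 1 ≤ e i)
    (hE : ∀ i j j', ∃ l, c l = i ∧ E l = Pi.single j (e i - 1) + Pi.single j' 1) (p : ℕ) (hp' : p.Prime) :
    mean d p (fun m => prim p c E m ^ 2) ≤ 2 := by
  have hf : Fact p.Prime := ⟨hp'⟩
  have hp1 : (1 : ℝ) < p := by exact_mod_cast hp'.one_lt
  have hp22 : (2 : ℝ) ≤ p := by exact_mod_cast hp'.two_le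
  have hp0 : (0 : ℝ) < p := by linarith
  have hp2 : (0 : ℝ) < (p : ℝ) - 1 := by linarith
  have h3 : (fun m : Fin d → ℕ => prim p c E m ^ 2) = fun m : Fin d → ℕ =>
      (fun z : Fin d → ZMod p => (1 / (((p : ℝ) - 1) * (Real.sqrt p) ^ (n - 1 - s))) ^ 2 * (∑ u ∈ nz n p hp', phs p s (LF c (mv E u) z)) ^ 2) (fun i => (m i : ZMod p)) := by
    funext m
    rw [prim_eq c E m p hp', mul_pow]
  have h4 : mean d p (fun m => prim p c E m ^ 2) =
      (∑ z : Fin d → ZMod p, (1 / (((p : ℝ) - 1) * (Real.sqrt p) ^ (n - 1 - s))) ^ 2 * (∑ u ∈ nz n p hp', phs p s (LF c (mv E u) z)) ^ 2) / (p : ℝ) ^ d := by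
    rw [h3]
    exact mean_zmod d p hp' (fun z => (1 / (((p : ℝ) - 1) * (Real.sqrt p) ^ (n - 1 - s))) ^ 2 * (∑ u ∈ nz n p hp', phs p s (LF c (mv E u) z)) ^ 2)
  rw [h4, ← mul_sum, div_le_iff₀ (pow_pos hp0 d)]
  have h5 := sec_second E c e he hE _ (nz_ne n p hp')
  rw [card_nz n p hp'] at h5
  have hsq : (Real.sqrt p ^ (n - 1 - s)) ^ 2 = (p : ℝ) ^ (n - 1 - s) := by
    rw [← pow_mul, mul_comm, pow_mul, Real.sq_sqrt hp0.le]
  have hpn : (p : ℝ) ^ n - 1 ≤ 2 * ((p : ℝ) - 1) * ((p : ℝ) ^ (n - 1 - s) * (p : ℝ) ^ s) := by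
    rw [← pow_add]
    have e1 : n - 1 - s + s = n - 1 := by omega
    rw [e1]
    have e2 : (p : ℝ) ^ n = (p : ℝ) ^ (n - 1) * p := by
      rw [← pow_succ]
      congr 1
      omega
    rw [e2]
    have e3 : 0 < (p : ℝ) ^ (n - 1) := pow_pos hp0 _
    nlinarith
  have hs0 : Real.sqrt (p : ℝ) ≠ 0 := (Real.sqrt_pos.2 hp0).ne'
  calc (1 / (((p : ℝ) - 1) * (Real.sqrt p) ^ (n - 1 - s))) ^ 2 * ∑ z : Fin d → ZMod p, (∑ u ∈ nz n p hp', phs p s (LF c (mv E u) z)) ^ 2 ≤
        (1 / (((p : ℝ) - 1) * (Real.sqrt p) ^ (n - 1 - s))) ^ 2 * (((p : ℝ) - 1) * (2 * ((p : ℝ) - 1) * ((p : ℝ) ^ (n - 1 - s) * (p : ℝ) ^ s)) * ((p : ℝ) ^ d / (p : ℝ) ^ s)) := by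
        apply mul_le_mul_of_nonneg_left _ (sq_nonneg _)
        refine h5.trans ?_
        gcongr
    _ = 2 * (p : ℝ) ^ d := by
        rw [div_pow, one_pow, mul_pow, hsq]
        have : (p : ℝ) - 1 ≠ 0 := hp2.ne'
        field_simp

lemma prim_mod {s d n : ℕ} (c : Fin d → Fin s) (E : Fin d → (Fin n → ℕ)) (m : Fin d → ℕ) (p : ℕ) (hp' : p.Prime) :
    prim p c E m = prim p c E (fun i => m i % p) := by
  rw [prim_eq c E m p hp', prim_eq c E (fun i => m i % p) p hp']
  simp only [ZMod.natCast_mod]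

/-- **Complete intersections of any dimension from thin families.** Let `s < n` and let `s` systems of monomials of degrees `e i ≥ 1` in `n` variables be given,
`d` monomials together, the monomial number `l` having the exponents `E l` and occurring in the form number `c l`, such that all the monomials
`x_j ^ (e i - 1) x_j'` occur in the form number `i`. Let a base `b ≥ 2`, an integer `A ≥ 0` and `δ > 0` be given. There are `a > 0` and `y₀` such that for all
integers `r l`, `K l` (`l < d`), `y` with `2 r l ≤ K l` and `y ≥ y₀` the following holds.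

Let `0 ≤ N l < b ^ K l` be arbitrary integers, prescribe for every position `j` a digit `g l j` different from the digit of
`N l` in base `b`, and let `W x` be for every `x` any set of at most `x ^ A` complex functions `w` with `|w (p)| ≤ 1` on the primes, for instance Dirichlet characters,
or normalised traces of Frobenius of arbitrary motives over `ℚ` divided by the rank.
If one chooses `r l` of the `K l` positions and replaces the digits of `N l` at these positions, then for all but at most a proportion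
`1 / y ^ A` of the choices the intersection `X_m ⊆ ℙ ^ (n - 1)` of the `s` hypersurfaces with the coefficients `m l` obtained has the following property: for all
integers `x` with `y ≤ x ≤ exp (a r l)` for all `l`, all `w ∈ W x` and all real `τ` with `|τ| ≤ x ^ A`, `|∑ w (p) D_p (log p) p ^ (-i τ)| ≤ x ^ (1 / 2 + δ)`,
the sum running over the odd primes `p ≤ x` for which `|D_p| ≤ p ^ (1 / 2)`. -/
theorem result (b s d n : ℕ) (c : Fin d → Fin s) (E : Fin d → (Fin n → ℕ)) (e : Fin s → ℕ) (hb : 2 ≤ b) (hd : 1 ≤ d) (hsn : s < n)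
    (he : ∀ i, 1 ≤ e i) (_hdeg : ∀ l, ∑ j, E l j = e (c l)) (hE : ∀ i j j', ∃ l, c l = i ∧ E l = Pi.single j (e i - 1) + Pi.single j' 1)
    (δ : ℝ) (hδ : 0 < δ) (A : ℕ) :
    ∃ a : ℝ, 0 < a ∧ ∃ y₀ : ℕ,
    ∀ (K r : Fin d → ℕ) (y : ℕ), (∀ l, 2 * r l ≤ K l) → y₀ ≤ y →
    ∀ N : Fin d → ℕ, (∀ l, N l < b ^ K l) → ∀ g : Fin d → ℕ → ℕ, (∀ l j, g l j < b ∧ g l j ≠ digit b j (N l)) →
    ∀ W : ℕ → Finset (ℕ → ℂ), (∀ x, ∀ w ∈ W x, ∀ p, ‖w p‖ ≤ 1) → (∀ x, (W x).card ≤ x ^ A) →
      (exceptions b K r N g (fun m => ∀ x : ℕ, y ≤ x → (∀ l, (x : ℝ) ≤ Real.exp (a * r l)) → ∀ w ∈ W x,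
        ∀ τ : ℝ, |τ| ≤ (x : ℝ) ^ A → ‖partialSum c E m w τ x‖ ≤ (x : ℝ) ^ (1 / 2 + δ)) : ℝ) ≤
        1 / (y : ℝ) ^ A * ∏ l, ((K l).choose (r l) : ℝ) := by
  classical
  obtain ⟨a, ha, y₀, h⟩ := mzd_law b d hb hd (δ / 2) (by positivity) A A A
  obtain ⟨x₁, hx₁⟩ := absorb 8 (δ / 2) (by positivity) (by positivity)
  refine ⟨a, ha, y₀ + x₁ + 2, fun K r y hrK hy N hN g hg W hw hW => ?_⟩
  obtain ⟨Z, hZ⟩ : ∃ Z : ℕ → (ℕ → ℂ) → ℕ → (Fin d → ℕ) → ℂ, Z = fun _ (w : ℕ → ℂ) (p : ℕ) m => w p * ((trunc (Real.sqrt p) (prim p c E m) * Real.log p : ℝ) : ℂ) := ⟨_, rfl⟩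
  have hZ1 : ∀ x, ∀ w ∈ W x, ∀ p ∈ op x, ∀ m, ‖Z x w p m‖ ≤ (Real.log x + 1) * |trunc (Real.sqrt p) (prim p c E m)| := by
    intro x w hwx p hp' m
    rw [mem_op] at hp'
    have hp1 : (1 : ℝ) ≤ p := by exact_mod_cast hp'.2.1.one_lt.le
    have hpx : (p : ℝ) ≤ x := by exact_mod_cast hp'.1
    have hlp : 0 ≤ Real.log p := Real.log_nonneg hp1
    have hlx : Real.log p ≤ Real.log x := Real.log_le_log (by linarith) hpx
    rw [hZ]
    simp only
    rw [norm_mul, Complex.norm_real, Real.norm_eq_abs, abs_mul, abs_of_nonneg hlp]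
    have h4 := hw x w hwx p
    calc ‖w p‖ * (|trunc (Real.sqrt p) (prim p c E m)| * Real.log p) ≤ 1 * (|trunc (Real.sqrt p) (prim p c E m)| * (Real.log x + 1)) := by
          gcongr
          linarith
      _ = _ := by ring
  have htr : ∀ x, ∀ p ∈ op x, |mean d p (fun m => trunc (Real.sqrt p) (prim p c E m))| ≤ 2 / Real.sqrt p := by
    intro x p hp'
    rw [mem_op] at hp'
    have hp0 : (0 : ℝ) < p := by exact_mod_cast hp'.2.1.pos
    exact mean_trunc d p _ (Real.sqrt p) 2 (Real.sqrt_pos.2 hp0) (mean_prim c E e he hE p hp'.2.1) (mean_prim_sq hsn c E e he hE p hp'.2.1)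
  have h2 := h K r y hrK (by omega) N hN g hg (ℕ → ℂ) W (fun x _ => hW x) Z (by
      intro x w p m hp'
      rw [hZ]
      simp only
      rw [prim_mod c E m p hp']) (fun x _ => 8 * (Real.sqrt x * (Real.log x + 1))) (by
      intro x hx w _
      have : 0 ≤ Real.log x := Real.log_natCast_nonneg x
      positivity) ?_ ?_ ?_
    (fun m => ∀ x : ℕ, y ≤ x → (∀ l, (x : ℝ) ≤ Real.exp (a * r l)) → ∀ w ∈ W x,
        ∀ τ : ℝ, |τ| ≤ (x : ℝ) ^ A → ‖partialSum c E m w τ x‖ ≤ (x : ℝ) ^ (1 / 2 + δ)) ?_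
  · unfold exceptions
    exact h2
  · -- the bound
    intro x hx w hwx p hp' m
    refine (hZ1 x w hwx p hp' m).trans ?_
    rw [mem_op] at hp'
    have hpx : (p : ℝ) ≤ x := by exact_mod_cast hp'.1
    have hlx0 : 0 ≤ Real.log x := Real.log_natCast_nonneg x
    have h3 := trunc_le (Real.sqrt p) (prim p c E m) (Real.sqrt_nonneg _)
    have h5 : Real.sqrt p ≤ Real.sqrt x := Real.sqrt_le_sqrt hpx
    calc (Real.log x + 1) * |trunc (Real.sqrt p) (prim p c E m)| ≤ (Real.log x + 1) * Real.sqrt x :=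
          mul_le_mul_of_nonneg_left (h3.trans h5) (by positivity)
      _ ≤ 8 * (Real.sqrt x * (Real.log x + 1)) := by
          have : 0 ≤ Real.sqrt x * (Real.log x + 1) := by positivity
          linarith
  · -- the means
    intro x hx w hwx
    have hlx0 : 0 ≤ Real.log x := Real.log_natCast_nonneg x
    have hone : ∀ p ∈ op x, |mean d p (fun m => (Z x w p m).re)| + |mean d p (fun m => (Z x w p m).im)| ≤
        (4 * (Real.log x + 1)) * (1 / Real.sqrt p) := by
      intro p hp'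
      have hp'' := hp'
      rw [mem_op] at hp'
      have hp1 : (1 : ℝ) ≤ p := by exact_mod_cast hp'.2.1.one_lt.le
      have hpx : (p : ℝ) ≤ x := by exact_mod_cast hp'.1
      have hlp : 0 ≤ Real.log p := Real.log_nonneg hp1
      have hlx : Real.log p ≤ Real.log x := Real.log_le_log (by linarith) hpx
      have gen : ∀ f : ℝ, |f| ≤ 1 → |mean d p (fun m => (f * Real.log p) * trunc (Real.sqrt p) (prim p c E m))| ≤ (Real.log x + 1) * (2 / Real.sqrt p) := by
        intro f hf1
        rw [mean_mul, abs_mul, abs_mul, abs_of_nonneg hlp]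
        have h3 := htr x p hp''
        calc |f| * Real.log p * |mean d p (fun m => trunc (Real.sqrt p) (prim p c E m))| ≤ 1 * (Real.log x + 1) * (2 / Real.sqrt p) := by
              gcongr
              linarith
          _ = _ := by ring
      have e1 : (fun m : Fin d → ℕ => (Z x w p m).re) = fun m => ((w p).re * Real.log p) * trunc (Real.sqrt p) (prim p c E m) := by
        funext m
        rw [hZ]
        simp only
        rw [Complex.re_mul_ofReal]
        ring
      have e2 : (fun m : Fin d → ℕ => (Z x w p m).im) = fun m => ((w p).im * Real.log p) * trunc (Real.sqrt p) (prim p c E m) := by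
        funext m
        rw [hZ]
        simp only
        rw [Complex.im_mul_ofReal]
        ring
      rw [e1, e2]
      have g1 := gen (w p).re ((Complex.abs_re_le_norm _).trans (hw x w hwx p))
      have g2 := gen (w p).im ((Complex.abs_im_le_norm _).trans (hw x w hwx p))
      calc _ ≤ (Real.log x + 1) * (2 / Real.sqrt p) + (Real.log x + 1) * (2 / Real.sqrt p) := add_le_add g1 g2
        _ = _ := by ring
    refine (sum_le_sum hone).trans ?_
    rw [← mul_sum]
    calc (4 * (Real.log x + 1)) * ∑ p ∈ op x, 1 / Real.sqrt p ≤ (4 * (Real.log x + 1)) * (2 * Real.sqrt x) := by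
          apply mul_le_mul_of_nonneg_left (sum_inv_sqrt x)
          positivity
      _ = _ := by ring
  · -- the variance
    intro x hx w hwx
    have hx0 : (0 : ℝ) ≤ x := Nat.cast_nonneg x
    have hlx0 : 0 ≤ Real.log x := Real.log_natCast_nonneg x
    have hone : ∀ p ∈ op x, mean d p (fun m => ‖Z x w p m‖ ^ 2) ≤ (Real.log x + 1) ^ 2 * 2 := by
      intro p hp'
      have hp'' := hp'
      rw [mem_op] at hp'
      have h3 : ∀ m, ‖Z x w p m‖ ^ 2 ≤ (Real.log x + 1) ^ 2 * prim p c E m ^ 2 := by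
        intro m
        calc ‖Z x w p m‖ ^ 2 ≤ ((Real.log x + 1) * |trunc (Real.sqrt p) (prim p c E m)|) ^ 2 := pow_le_pow_left₀ (norm_nonneg _) (hZ1 x w hwx p hp'' m) 2
          _ = (Real.log x + 1) ^ 2 * trunc (Real.sqrt p) (prim p c E m) ^ 2 := by rw [mul_pow, sq_abs]
          _ ≤ _ := mul_le_mul_of_nonneg_left (trunc_sq _ _) (sq_nonneg _)
      refine (mean_mono d p _ _ h3).trans ?_
      rw [mean_mul]
      exact mul_le_mul_of_nonneg_left (mean_prim_sq hsn c E e he hE p hp'.2.1) (sq_nonneg _)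
    refine (sum_le_sum hone).trans ?_
    rw [sum_const, nsmul_eq_mul]
    have hsx : Real.sqrt x * Real.sqrt x = x := Real.mul_self_sqrt hx0
    calc ((op x).card : ℝ) * ((Real.log x + 1) ^ 2 * 2) ≤ x * ((Real.log x + 1) ^ 2 * 2) :=
          mul_le_mul_of_nonneg_right (cardop_le x) (by positivity)
      _ ≤ x * ((Real.log x + 1) ^ 2 * 64) := by
          gcongr
          norm_num
      _ = (Real.sqrt x * Real.sqrt x) * ((Real.log x + 1) ^ 2 * 64) := by rw [hsx]
      _ = _ := by ring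
  · -- the conclusion
    intro m hm x hyx hxr w hwx τ hτ
    have hx2 : 2 ≤ x := by omega
    have hx0 : (0 : ℝ) < x := by exact_mod_cast (by omega : 0 < x)
    have hx1 : (1 : ℝ) ≤ x := by exact_mod_cast (by omega : 1 ≤ x)
    have hlx0 : 0 ≤ Real.log x := Real.log_natCast_nonneg x
    have e1 : partialSum c E m w τ x = ∑ p ∈ op x, Z x w p m * hp τ p := by
      unfold partialSum
      rw [← filter_filter, sum_filter]
      apply sum_congr rfl
      intro p _
      rw [hZ]
      unfold trunc Pool.Agent.X22.ND.hp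
      simp only
      split_ifs
      · rfl
      · simp
    have h4 := hm x hyx hxr w hwx τ hτ
    have h6 := hx₁ x (by omega)
    have hpow : (x : ℝ) ^ (1 / 2 + δ) = Real.sqrt x * ((x : ℝ) ^ (δ / 2) * (x : ℝ) ^ (δ / 2)) := by
      rw [← Real.rpow_add hx0, Real.sqrt_eq_rpow, ← Real.rpow_add hx0]
      congr 1
      ring
    rw [e1]
    calc ‖∑ p ∈ op x, Z x w p m * hp τ p‖ ≤ 8 * (Real.sqrt x * (Real.log x + 1)) * (x : ℝ) ^ (δ / 2) := h4
      _ = Real.sqrt x * ((8 * (Real.log x + 1)) * (x : ℝ) ^ (δ / 2)) := by ring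
      _ ≤ Real.sqrt x * ((x : ℝ) ^ (δ / 2) * (x : ℝ) ^ (δ / 2)) := by gcongr
      _ = _ := hpow.symm

end Pool.Agent.Results.MP_039d94_nt.FewDigitCompleteIntersections
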