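import Pool.Agent.X298.HC.S2Ind

/-!
# The edge line: tensor products with motives with few nonzero traces

`M` is an arbitrary motive (one cohomology group, for instance `H^a(X)` for a smooth projective variety
`X`) over a number field `K`, for instance over `ℚ`; it is given by its Frobenius eigenvalues, which have
the absolute value `q_v^{w/2}` at almost all primes (Deligne).  `M'` runs over the motives over `K` whose
Frobenius traces are `q_v^{w'/2}` times those of a virtual representation `ρ` of the Weil group of `K`
(an integral combination of representations `Ind ψ N^{-iτ}` induced from Hecke characters of finite
extensions), for instance over all potentially CM motives and all Artin motives.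

The theorems about the orders of `L(M ⊗ M', s)` on the edge line `Re s = (w + w')/2 + 1` for an unknown
`M` that were handed in before had finite exceptional sets of `M'`.  Here there is no exceptional set:
if the traces of Frobenius on `M'` vanish outside a set of primes of small density, then the order is
the one predicted by the conjecture of Tate, and not only for almost all `M'`.
-/

set_option autoImplicit false

namespace Pool.Agent.Results.MP_039d94_nt.FewNonzeroTraces

open NumberField IsDedekindDomain Filter Topology Polynomial Pool.Agent.X298.HC

/-- **Tensor products with motives with few nonzero traces.**  Let `M` be a motive over the number field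
`K` and `κ` a virtual representation of the Weil group of `K` whose dual is a part of `M` (for instance
`κ = 0`).

1. Let `s` be the dimension of the rest of `M` (the dimension of `M` if `κ = 0`) and `A` a set of primes
of `K` of upper Dirichlet density at most `δ`.  Put `R = s² δ`.  Then `SparseAll M κ A R` holds, that is,
for the pairs `(M', τ)` such that the trace of Frobenius on `M'` is zero at almost all primes outside
`A`, with `h` the intertwining number of `κ` and `ρ N^{-iτ}` (the order of the pole of `L(M ⊗ M', s)` at
`(w + w')/2 + 1 + iτ` predicted by Tate) and `q` the one of `ρ N^{-iτ}` with itself:

* if `R q < 1`, then the order of `L(M ⊗ M', s)` at `(w + w')/2 + 1 + iτ` is `-h`, if there is a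
meromorphic continuation to a neighbourhood of this point; without continuation,
`log |L(M ⊗ M', (w + w')/2 + 1 + iτ + ε)| / log(1/ε)` differs from `h` by at most `c < 1` for all small
`ε > 0`; if the traces on `M` and `κ` are real, then the same holds if `R (q + q') < 2`, `q'` the
intertwining number of `ρ N^{-iτ}` and its complex conjugate;
* for finitely many such pairs, the orders `m_k` and real `c_k`:
`(∑ c_k (m_k + h_k))² ≤ R ∑ c_k c_l q_kl`, and the same without continuation, up to `η`;
* for all `r` and `k ≥ 1` there are at most `k² r R` exceptional pairs, such that the order is `-h`, and
without continuation the quotient differs from `h` by less than `1/k` for arbitrarily small `ε`, for all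
such pairs with `q ≤ r` orthogonal to the exceptional ones.

2. Let `F` be a Galois extension of `K`.  The primes of `K` with a prime of `F` of the same norm above
them have upper density at most `1/[F : K]`; and outside these primes the traces vanish on all `M'` for
which `ρ` is induced from `F`.  `SparseAll M κ A R` holds for the set `A` of these primes with
`R = s²/[F : K]`; if `κ = 0`, also with `R = r/[F : K]`, `r` the order of the pole of
`L((M ⊗ M^∨)_F, s)` at `s = 1`. -/
theorem result (K : Type) [Field K] [NumberField K] (M : PureMotive K) (κ : Virt K) :
    (∀ (s : ℕ) (A : Set (HeightOneSpectrum (𝓞 K))) (δ : ℝ), 0 ≤ δ → IsPartOf M s κ →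
      DensityLE A δ → SparseAll M κ A (s ^ 2 * δ)) ∧
    ∀ (F : Type) [Field F] [NumberField F] [Algebra K F] [IsGalois K F],
      DensityLE (splitPrimes K F) (1 / Module.finrank K F) ∧
      (∀ D : TensorData M, IndFrom' F D.ρ → D.SupportedOn (splitPrimes K F)) ∧
      ∀ R : ℕ, RestOver M κ F R →
        SparseAll M κ (splitPrimes K F) (R / Module.finrank K F) :=
  sparse_main K M κ

end Pool.Agent.Results.MP_039d94_nt.FewNonzeroTraces
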