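import Pool.Agent.X298.HC.MTwist
import Pool.Agent.X298.HC.EdgeDefs

/-!
# The edge line of `L(H^a(X) ⊗ ρ, s)` for all representations `ρ` of Weil groups, and of products

`X` is a smooth projective variety over a number field `K`, for example `K = ℚ`.  The question asks for
the continuation of the `L`-functions of all varieties, and for their poles.  The only possible poles on
the edge line `Re s = i/2 + 1` of the half plane of absolute convergence should be at the real point, and
there should be no zeros.  The theorem is about the edge line of the `L`-functions of the varieties which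
are built from `X` by extension of the base to an arbitrary number field, by twists with the
representations `ρ` of the Weil group of `K` (all Artin representations, all Hecke characters of all finite
extensions, induction), and by products with varieties with potentially abelian cohomology (for
instance all varieties of CM type, also if the complex multiplications are not defined over `K`).

The definitions are in `Pool.Agent.X298.HC.Defs` (`HeckeChar`), `Pool.Agent.X298.HC.PDefs`,
`Pool.Agent.X298.HC.MDefs` (`Virt`, `IsPotAbelian`), `Pool.Agent.X298.HC.PoleDefs` (`Continuations`),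
`Pool.Agent.X298.HC.EdgeDefs` (the statements), `Pool.Agent.X298.HC.BC` (`HeckeChar.bc`: the composition
with the relative norm) and `Pool.Agent.W353.EF.Defs`, `Pool.Agent.W353.EH.Defs`.
-/

set_option autoImplicit false

namespace Pool.Agent.Results.MP_039d94_nt.PotentiallyAbelianEdgeLine

open NumberField IsDedekindDomain Filter Topology Polynomial Pool.Agent.X298.HC

/-- **The edge line for twists and products.**  Let `X` be a projective variety of dimension `d` over a
number field `K`, with Betti numbers `N a`, and for `a ≤ 2 d` let `R a = (N a)²`, or let `R a` be the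
order of the pole of `L(H^a(X) ⊗ H^a(X), s)` at `s = a + 1`.  The virtual representations `ρ` of the Weil
group of `K` are the integral combinations of `Ind ψ N^{-iτ}`, `ψ` a Hecke character of a finite extension
`F` of `K` and `τ` real, so `L(H^a(X) ⊗ ρ, s)` at `a/2 + 1` involves all `L(H^a(X_F) ⊗ ψ, s)` on the
whole edge line.

1. For finitely many `ρ_k` and real `c_k`: `(∑ c_k s_k(ε))² ≤ R a ∑ c_k c_l ⟨ρ_k, ρ_l⟩ + η` for small
`ε > 0`, `s_k(ε) = log |L(H^a(X) ⊗ ρ_k, a/2 + 1 + ε)| / log(1/ε)`, and the same for the orders `m_k` if
they exist; in particular `∑ m_k² / ⟨ρ_k, ρ_k⟩ ≤ R a` for pairwise orthogonal `ρ_k`.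

2. For all `r` and `k ≥ 1` there is a set `S` of at most `k² r R a` virtual representations such that for
all `ρ` orthogonal to `S` with `⟨ρ, ρ⟩ ≤ r`: `|s(ε)| < 1/k` for arbitrarily small `ε > 0` (no continuation
is assumed), and there is neither a pole nor a zero at `a/2 + 1`, if there is a continuation.

3. For every `r` there is a set `S` of at most `r ∑ R a` tuples of virtual representations such that for
all `Y` with potentially abelian cohomology, given by representations `ρ b`, all representations `κ b`,
all degrees `i` and heights `τ`, if the rest `(ρ (i - a) - κ (i - a)) N^{-iτ}`, `a ≤ 2 d`, is orthogonal to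
`S` and of norm at most `r`, then the order of `L(H^i(X × Y), s)` at `i/2 + 1 + iτ` is the sum of the
orders of the `L(H^a(X) ⊗ κ (i - a), s)` at `a/2 + 1 + iτ` (with the corresponding statement without
continuations).

4. If all `L(H^a(X) ⊗ π, s)`, `π` monomial and irreducible, have continuations to neighbourhoods of
`a/2 + 1`, then a set `S` of at most `∑ R a` pairs `(a, π)` is sufficient for all `Y`, `κ`, `i`, `τ` such
that the rest is composed of monomial irreducible representations. -/
theorem result {K : Type} [Field K] [NumberField K] {n : ℕ}
    (X : Set (MvPolynomial (Fin n) (𝓞 K))) (d : ℕ) (N R : ℕ → ℕ) (hR : SecondMoment X d N R) :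
    (∀ a ≤ 2 * d, TwistGram X d N R a ∧ ∀ r k, 1 ≤ k → TwistExceptional X d N R a r k) ∧
      (∀ r, EdgeExceptional X d N R r) ∧ (Continuations X d N → EdgeMonomial X d N R) := by
  refine ⟨fun a ha => ⟨?_, ?_⟩, fun r => ?_, fun H => ?_⟩
  · intro l ρ B c hB
    exact ⟨fun η hη => gram_sizes hR ha ρ B hB c hη, fun m hm => gram_orders hR ha ρ B hB m hm c⟩
  · intro r k hk
    exact twist_excM hR ha r k hk
  · obtain ⟨S, hS, h⟩ := kunneth_pa X d N R hR r
    refine ⟨S, hS, ?_⟩
    intro D hr hσ
    exact h D.n' D.Y D.e D.M D.ρ D.κ D.i D.τ D.pot hr hσ D.B D.B' D.prod D.twist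
  · obtain ⟨S, hS, h⟩ := kunneth_mono X d N R hR Set.univ (fun a ha π _ hπ => H a ha π hπ)
    refine ⟨S, hS, ?_⟩
    intro D hσ
    exact h D.n' D.Y D.e D.M D.ρ D.κ D.i D.τ D.pot (fun p hp π hπ =>
      ⟨Set.mem_univ _, hσ p hp π hπ⟩) D.B D.B' D.prod D.twist

end Pool.Agent.Results.MP_039d94_nt.PotentiallyAbelianEdgeLine
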